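import Pool.Agent.Helper74.LL.GoalsG
import Pool.Agent.Helper15.AM.All

/-!
# Project LL (MP_cc6379_al), packet HARD
-/

set_option autoImplicit false

namespace Pool.Agent.Helper41.LL.HARD

open Pool.Agent.Helper15.RA Pool.Agent.Helper45.AM Pool.Agent.Helper74.LL

section

variable {S W : Type} [Group W] {M : CoxeterMatrix S} (cs : CoxeterSystem M W)

/-- the facts on right descents which are used -/
structure RF : Prop where
  /-- `KD2` (1), short form -/
  d1 : ∀ i j w, i ≠ j → cs.IsRightDescent w i → cs.IsRightDescent w j →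
    cs.IsRightDescent (w * cs.simple i) j
  /-- `KD2` (1), long form -/
  d7 : ∀ i j w, i ≠ j → M i j ≠ 2 → cs.IsRightDescent w i → cs.IsRightDescent w j →
    cs.IsRightDescent (w * cs.simple i * cs.simple j) i ∧
      cs.IsRightDescent (w * cs.simple i * cs.simple j * cs.simple i) j ∧
      cs.IsRightDescent (w * cs.simple i * cs.simple j * cs.simple i * cs.simple j) i
  k1 : ∀ w a b c, a ≠ b → a ≠ c → b ≠ c → cs.IsRightDescent w a → cs.IsRightDescent w b →
    cs.IsRightDescent (w * cs.simple a) b → cs.IsRightDescent (w * cs.simple a) c → M a b = 2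
  cl1 : ∀ w a b c, c ≠ a → c ≠ b → cs.IsRightDescent w a → cs.IsRightDescent (w * cs.simple a) b →
    cs.IsRightDescent w c → M a c = 2
  mat : ∀ i j k, M i j = 2 → M i k = 2 → j = k
  comm : ∀ i j, M i j = 2 → cs.simple i * cs.simple j = cs.simple j * cs.simple i
  d5 : ∀ i j x, M i j = 2 → ¬ cs.IsRightDescent x i → cs.IsRightDescent x j →
    cs.IsRightDescent (x * cs.simple i) j
  red : ∀ (u v : W) (i : S), cs.length (u * v) = cs.length u + cs.length v →
    cs.IsRightDescent v i → cs.IsRightDescent (u * v) i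

lemma rf (hKD2 : KD2) (hK1 : K1) (hM : Lg M) : RF cs := by
  obtain ⟨h1, -, -, -, h5, -, -, -, -, h10, h11⟩ := hKD2 S W M cs
  obtain ⟨k1, -, -, -, k5, -⟩ := hK1 S W M cs hM
  exact
    { d1 := fun i j w hij hi hj => (h1 i j hij (hM.fin i j) w hi hj).2.1
      d7 := fun i j w hij h2 hi hj => (h1 i j hij (hM.fin i j) w hi hj).2.2 (hM.big i j hij h2)
      k1 := k1
      cl1 := k5
      mat := hM.mat
      comm := h11
      d5 := h5
      red := fun u v i h hv => (h10 u v i h).1 hv }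

variable {cs}

lemma mm (w : W) (i : S) : w * cs.simple i * cs.simple i = w := by
  rw [mul_assoc, cs.simple_mul_simple_self, mul_one]

/-- a descent is not a descent any more after it is removed -/
lemma nd {w : W} {i : S} (h : cs.IsRightDescent w i) : ¬ cs.IsRightDescent (w * cs.simple i) i := by
  intro h2
  have h3 := cs.isRightDescent_iff.mp h
  have h4 := cs.isRightDescent_iff.mp h2
  rw [mm] at h4
  omega

/-- part (1) and (2) -/
lemma part2 (F : RF cs) (x g y : W) (p q θ : S) (hpq : p ≠ q)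
    (hl : cs.length (x * g * y) = cs.length x + cs.length g + cs.length y)
    (hyp : ¬ cs.IsRightDescent y p) (hyq : ¬ cs.IsRightDescent y q)
    (hgy : cs.IsRightDescent (g * y) p) (hq : cs.IsRightDescent (x * g * y * cs.simple p) q)
    (hθ : cs.IsRightDescent y θ) :
    M p θ = 2 ∧ M θ q ≠ 2 ∧ cs.IsRightDescent (x * g * y * cs.simple p) θ ∧ θ ≠ p ∧ θ ≠ q ∧
      y = cs.simple θ := by
  have hθp : θ ≠ p := by
    rintro rfl
    exact hyp hθ
  have hθq : θ ≠ q := by
    rintro rfl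
    exact hyq hθ
  -- lengths
  have hsub : ∀ u v : W, cs.length (u * v) ≤ cs.length u + cs.length v := cs.length_mul_le
  have hlgy : cs.length (g * y) = cs.length g + cs.length y := by
    have h1 := hsub g y
    have h2 := hsub x (g * y)
    rw [← mul_assoc] at h2
    omega
  have hlx : cs.length (x * (g * y)) = cs.length x + cs.length (g * y) := by
    rw [← mul_assoc, hl, hlgy]
    omega
  have hvp : cs.IsRightDescent (x * g * y) p := by
    rw [mul_assoc]
    exact F.red x (g * y) p hlx hgy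
  have hvθ : cs.IsRightDescent (x * g * y) θ := by
    rw [mul_assoc]
    exact F.red x (g * y) θ hlx (F.red g y θ hlgy hθ)
  have hvpθ : cs.IsRightDescent (x * g * y * cs.simple p) θ :=
    F.d1 p θ _ hθp.symm hvp hvθ
  have hpθ : M p θ = 2 := F.k1 _ p θ q hθp.symm hpq hθq hvp hvθ hvpθ hq
  have hθp2 : M θ p = 2 := by rw [M.symmetric, hpθ]
  have hθq2 : M θ q ≠ 2 := fun h => hpq (F.mat θ p q hθp2 h)
  refine ⟨hpθ, hθq2, hvpθ, hθp, hθq, ?_⟩
  -- part (2)
  have hly : cs.length (y * cs.simple θ) + 1 = cs.length y := cs.isRightDescent_iff.mp hθ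
  by_contra hne
  have hy3 : y * cs.simple θ ≠ 1 := by
    intro h
    apply hne
    have h2 := congrArg (fun z => z * cs.simple θ) h
    simp only [one_mul] at h2
    rw [mm] at h2
    exact h2
  obtain ⟨θ₃, h3⟩ := cs.exists_rightDescent_of_ne_one hy3
  have hθ3 : θ₃ ≠ θ := by
    rintro rfl
    exact nd hθ h3
  have hp3 : ¬ cs.IsRightDescent (y * cs.simple θ) p := by
    intro h
    have h2 := F.d5 θ p _ hθp2 (nd hθ) h
    rw [mm] at h2
    exact hyp h2
  have hθ3p : θ₃ ≠ p := by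
    rintro rfl
    exact hp3 h3
  obtain ⟨v₃, hv3⟩ : ∃ v₃, v₃ = x * g * (y * cs.simple θ) := ⟨_, rfl⟩
  have hv3' : v₃ = x * g * y * cs.simple θ := by rw [hv3]; group
  have hlv3 : cs.length v₃ + 1 = cs.length (x * g * y) := by
    rw [hv3']
    exact cs.isRightDescent_iff.mp hvθ
  have h3p : cs.IsRightDescent v₃ p := by
    rw [hv3']
    exact F.d1 θ p _ hθp hvθ hvp
  have hlxg : cs.length (x * g * (y * cs.simple θ)) =
      cs.length (x * g) + cs.length (y * cs.simple θ) := by
    have h1 := hsub x g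
    have h2 := hsub (x * g) (y * cs.simple θ)
    rw [hv3] at hlv3
    omega
  have h33 : cs.IsRightDescent v₃ θ₃ := by
    rw [hv3]
    exact F.red _ _ _ hlxg h3
  have hM3 : M p θ₃ ≠ 2 := fun h => hθ3 (F.mat p θ₃ θ h hpθ)
  -- the words after `v p`
  have e1 : x * g * y * cs.simple p * cs.simple θ = v₃ * cs.simple p := by
    rw [hv3', mul_assoc, F.comm p θ hpθ, ← mul_assoc]
  have f1 : cs.IsRightDescent (v₃ * cs.simple p) q := by
    have := F.d1 θ q _ hθq hvpθ hq
    rw [e1] at this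
    exact this
  obtain ⟨f2, f3, f4⟩ := F.d7 θ q _ hθq hθq2 hvpθ hq
  rw [e1] at f2 f3 f4
  by_cases h3q : θ₃ = q
  · subst h3q
    have hpq2 : M p θ₃ ≠ 2 := hM3
    have g1 := (F.d7 p θ₃ v₃ hpq hpq2 h3p h33).1
    have g2 : cs.IsRightDescent (v₃ * cs.simple p * cs.simple θ₃ * cs.simple θ) p :=
      F.d1 θ p _ hθp f2 g1
    have g3 : cs.IsRightDescent (v₃ * cs.simple p * cs.simple θ₃ * cs.simple θ * cs.simple θ₃) p :=
      F.d1 θ₃ p _ hθ3p f3 g2
    have g4 := F.k1 _ θ₃ p θ hθ3p hθ3 hθp.symm f3 g2 g3 f4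
    rw [M.symmetric] at g4
    exact hpq2 g4
  · have g1 : cs.IsRightDescent (v₃ * cs.simple p) θ₃ := F.d1 p θ₃ _ hθ3p.symm h3p h33
    exact hM3 (F.k1 _ p θ₃ q hθ3p.symm hpq h3q h3p h33 g1 f1)

/-- parts (3) to (6), for the generators `a, p` -/
lemma part3 (F : RF cs) (hKD1 : KD1) (hKD2 : KD2) (hM : Lg M) (x g : W) (a p q θ : S)
    (hap : a ≠ p) (hpq : p ≠ q) (hθp : θ ≠ p) (hθq : θ ≠ q) (hθa : θ ≠ a)
    (hx : XR cs {a, p} x) (hg : g ∈ par cs {a, p}) (hg2 : 2 ≤ cs.length g)
    (hl : cs.length (x * g * cs.simple θ) = cs.length x + cs.length g + 1)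
    (hgp : cs.IsRightDescent g p) (hpθ : M p θ = 2) (hθq2 : M θ q ≠ 2)
    (hwθ : cs.IsRightDescent (x * g * cs.simple θ * cs.simple p) θ)
    (hwq : cs.IsRightDescent (x * g * cs.simple θ * cs.simple p) q) :
    q = a ∧ g = cs.simple a * cs.simple p ∧ cs.IsRightDescent x θ ∧
      cs.IsRightDescent (x * cs.simple θ) a ∧ cs.IsRightDescent (x * cs.simple a * cs.simple θ) a ∧
      ¬ cs.IsRightDescent (x * cs.simple a) θ ∧
      ¬ cs.IsRightDescent (g * cs.simple θ * cs.simple p) a := by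
  obtain ⟨h1, -, h3, -⟩ := hKD2 S W M cs
  have hma : M a p ≠ 0 := hM.fin a p
  obtain ⟨-, -, k3, -, -, k6, -⟩ := hKD1 S W M cs a p hap hma
  have hθp2 : M θ p = 2 := by rw [M.symmetric, hpθ]
  have hsa : cs.simple a ∈ par cs {a, p} :=
    Subgroup.subset_closure ⟨a, by simp, rfl⟩
  have hsp : cs.simple p ∈ par cs {a, p} :=
    Subgroup.subset_closure ⟨p, by simp, rfl⟩
  have haI : a ∈ ({a, p} : Set S) := by simp
  have hpI : p ∈ ({a, p} : Set S) := by simp
  -- `g₁`
  obtain ⟨g₁, hg1⟩ : ∃ g₁, g₁ = g * cs.simple p := ⟨_, rfl⟩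
  have hg1m : g₁ ∈ par cs {a, p} := by rw [hg1]; exact mul_mem hg hsp
  have hlg1 : cs.length g₁ + 1 = cs.length g := by
    rw [hg1]
    exact cs.isRightDescent_iff.mp hgp
  have hg1ne : g₁ ≠ 1 := by
    intro h
    rw [h, cs.length_one] at hlg1
    omega
  have hpg1 : ¬ cs.IsRightDescent g₁ p := by rw [hg1]; exact nd hgp
  have hag1 : cs.IsRightDescent g₁ a := ((k3 g₁ hg1m).2 hg1ne).1.resolve_right hpg1
  -- the word `w = x g₁ θ`
  have ew : x * g * cs.simple θ * cs.simple p = x * g₁ * cs.simple θ := by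
    rw [hg1, mul_assoc (x * g), F.comm θ p hθp2]
    group
  rw [ew] at hwθ hwq
  have f1 : cs.IsRightDescent (x * g₁) q := by
    have := F.d1 θ q _ hθq hwθ hwq
    rw [mm] at this
    exact this
  obtain ⟨f2, f3, f4⟩ := F.d7 θ q _ hθq hθq2 hwθ hwq
  rw [mm] at f2 f3 f4
  have haw1 : cs.IsRightDescent (x * g₁) a := (h3 {a, p} x g₁ a hx hg1m haI).mpr hag1
  -- (4)
  have hqa : q = a := by
    by_contra hqa
    have g1 := F.cl1 _ q θ a (fun h => hqa h.symm) hθa.symm f1 f2 haw1
    have g2 : cs.IsRightDescent (x * g₁ * cs.simple q) a := F.d1 q a _ hqa f1 haw1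
    have g3 : cs.IsRightDescent (x * g₁ * cs.simple q * cs.simple θ) a := F.d1 θ a _ hθa f2 g2
    have g4 := F.k1 _ θ a q hθa hθq (fun h => hqa h.symm) f2 g2 g3 f3
    exact hap (F.mat θ a p g4 hθp2)
  subst hqa
  have hap2 : M q p ≠ 2 := by
    intro h
    rw [M.symmetric] at h
    exact hθa (F.mat p θ q hpθ h)
  -- (5)
  have hlg1' : cs.length g₁ = 1 := by
    by_contra hne
    have hla : cs.length (g₁ * cs.simple q) + 1 = cs.length g₁ := cs.isRightDescent_iff.mp hag1
    have hg2ne : g₁ * cs.simple q ≠ 1 := by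
      intro h
      rw [h, cs.length_one] at hla
      omega
    have hg2m : g₁ * cs.simple q ∈ par cs {q, p} := mul_mem hg1m hsa
    have hpg2 : cs.IsRightDescent (g₁ * cs.simple q) p :=
      ((k3 _ hg2m).2 hg2ne).1.resolve_left (nd hag1)
    have g0 : cs.IsRightDescent (x * g₁ * cs.simple q) p := by
      have := (h3 {q, p} x _ p hx hg2m hpI).mpr hpg2
      rw [← mul_assoc] at this
      exact this
    have g1 : cs.IsRightDescent (x * g₁ * cs.simple q * cs.simple θ) p := F.d1 θ p _ hθp f2 g0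
    have g2 : cs.IsRightDescent (x * g₁ * cs.simple q * cs.simple θ * cs.simple q) p :=
      F.d1 q p _ hap f3 g1
    exact hap2 (F.k1 _ q p θ hap hθq.symm hθp.symm f3 g1 g2 f4)
  have hg1a : g₁ = cs.simple q := by
    rcases (k6 g₁ hg1m).1 hlg1' with h | h
    · exact h
    · exfalso
      apply hpg1
      rw [h]
      have : cs.length (cs.simple p * cs.simple p) < cs.length (cs.simple p) := by
        rw [cs.simple_mul_simple_self, cs.length_one, cs.length_simple]
        exact Nat.zero_lt_one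
      exact this
  have hgq : g = cs.simple q * cs.simple p := by
    have : g = g₁ * cs.simple p := by rw [hg1, mm]
    rw [this, hg1a]
  rw [hg1a, mm] at f2 f3 f4
  rw [hg1a] at hwθ hwq
  refine ⟨rfl, hgq, f2, f3, hwq, ?_, ?_⟩
  · -- the length of `x a θ`
    intro h
    have h5 := cs.isRightDescent_iff.mp h
    have h6 := cs.length_mul_le x (cs.simple q)
    rw [cs.length_simple] at h6
    -- `x g θ p = x a θ`
    have h7 : cs.length (x * g * cs.simple θ * cs.simple p) + 1 = cs.length (x * g * cs.simple θ) ∨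
        cs.length (x * g * cs.simple θ * cs.simple p) = cs.length (x * g * cs.simple θ) + 1 := by
      by_cases h8 : cs.IsRightDescent (x * g * cs.simple θ) p
      · exact Or.inl (cs.isRightDescent_iff.mp h8)
      · exact Or.inr (cs.not_isRightDescent_iff.mp h8)
    rw [ew, hg1a] at h7
    omega
  · intro h
    have e2 : g * cs.simple θ * cs.simple p = cs.simple q * cs.simple θ := by
      rw [hgq, mul_assoc (cs.simple q * cs.simple p), F.comm θ p hθp2, ← mul_assoc, mm]
    rw [e2] at h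
    have hqθ2 : M q θ ≠ 2 := by
      intro h2
      rw [M.symmetric] at h2
      exact hθq2 h2
    have hbig := hM.big q θ hθq.symm hqθ2
    obtain ⟨-, -, -, -, -, -, -, -, l2, l3, -⟩ := hKD1 S W M cs q θ hθq.symm (hM.fin q θ)
    have h9 := cs.isRightDescent_iff.mp h
    rw [l2, l3 (by omega)] at h9
    omega

end

/-- **HARD.** -/
theorem t (hKD1 : KD1) (hKD2 : KD2) (hK1 : K1) : Pool.Agent.Helper74.LL.HARD := by
  intro S W _ M cs hM i j x g y p q hij hx hg hy hy1 hpq hl hyp hyq hgy hq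
  have F : RF cs := rf cs hKD2 hK1 hM
  obtain ⟨θ, hθ⟩ := cs.exists_rightDescent_of_ne_one hy1
  obtain ⟨hpθ, hθq2, hvpθ, hθp, hθq, hyθ⟩ := part2 F x g y p q θ hpq hl hyp hyq hgy hq hθ
  subst hyθ
  obtain ⟨-, -, -, -, -, -, h7, -⟩ := hKD2 S W M cs
  obtain ⟨e, heI, hge, hey⟩ := h7 {i, j} g (cs.simple θ) p hg.1 hy hgy hyp
  have hinj : Function.Injective cs.simple := (Pool.Agent.Helper15.AM.k_gpb S W M cs).1
  have hep : e = p := by
    apply hinj
    rw [← F.comm p θ hpθ] at hey
    exact mul_right_cancel hey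
  subst hep
  have hθI : θ ∉ ({i, j} : Set S) := by
    intro h
    have h1 := hy θ h
    rw [cs.simple_mul_simple_self, cs.length_one] at h1
    omega
  have hθi : θ ≠ i := by
    rintro rfl
    exact hθI (by simp)
  have hθj : θ ≠ j := by
    rintro rfl
    exact hθI (by simp)
  have hMθ : M θ e = 2 := by rw [M.symmetric, hpθ]
  obtain ⟨-, -, -, -, hfull, -⟩ := hKD1 S W M cs i j hij (hM.fin i j)
  have hg2 := ((hfull g).mp hg).2
  rw [cs.length_simple] at hl
  rcases heI with he | he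
  · -- `p = i`
    subst he
    have hset : ({e, j} : Set S) = {j, e} := Set.pair_comm e j
    rw [hset] at hx
    have hgm := hg.1
    rw [hset] at hgm
    obtain ⟨r1, r2, r3, r4, r5, r6, r7⟩ := part3 F hKD1 hKD2 hM x g j e q θ hij.symm hpq hθp hθq hθj
      hx hgm hg2 hl hge hpθ hθq2 hvpθ hq
    subst r1
    exact ⟨θ, rfl, hMθ, Or.inl ⟨rfl, rfl⟩, hθq, r2, r3, r4, r5, r6, r7⟩
  · rw [Set.mem_singleton_iff] at he
    subst he
    obtain ⟨r1, r2, r3, r4, r5, r6, r7⟩ := part3 F hKD1 hKD2 hM x g i e q θ hij hpq hθp hθq hθi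
      hx hg.1 hg2 hl hge hpθ hθq2 hvpθ hq
    subst r1
    exact ⟨θ, rfl, hMθ, Or.inr ⟨rfl, rfl⟩, hθq, r2, r3, r4, r5, r6, r7⟩

end Pool.Agent.Helper41.LL.HARD
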